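import Pool.Agent.W323.PT.Stm

set_option autoImplicit false

namespace Pool.Agent.W318.PT

open Pool.Agent.W323.PT

theorem helly : S_Helly := by
  classical
  intro F hF h
  have hfr : Module.finrank ℝ Pt + 1 = 3 := by
    simp [Pt, Module.finrank_prod]
  have key : (⋂₀ (F : Set (Set Pt))).Nonempty := by
    refine Convex.helly_theorem_set' (𝕜 := ℝ) hF ?_
    intro G hG hc
    rw [hfr] at hc
    have hcase : G.card = 0 ∨ G.card = 1 ∨ G.card = 2 ∨ G.card = 3 := by omega
    rcases hcase with h0 | h1 | h2 | h3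
    · rw [Finset.card_eq_zero] at h0
      subst h0
      exact ⟨0, by simp⟩
    · obtain ⟨A, rfl⟩ := Finset.card_eq_one.1 h1
      have hA : A ∈ F := hG (by simp)
      obtain ⟨p, hp, -, -⟩ := h A hA A hA A hA
      exact ⟨p, by simpa using hp⟩
    · obtain ⟨A, B, -, rfl⟩ := Finset.card_eq_two.1 h2
      have hA : A ∈ F := hG (by simp)
      have hB : B ∈ F := hG (by simp)
      obtain ⟨p, hp, hq, -⟩ := h A hA B hB B hB
      exact ⟨p, by simpa using ⟨hp, hq⟩⟩
    · obtain ⟨A, B, C, -, -, -, rfl⟩ := Finset.card_eq_three.1 h3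
      have hA : A ∈ F := hG (by simp)
      have hB : B ∈ F := hG (by simp)
      have hC : C ∈ F := hG (by simp)
      obtain ⟨p, hp, hq, hr⟩ := h A hA B hB C hC
      exact ⟨p, by simpa using ⟨hp, hq, hr⟩⟩
  obtain ⟨p, hp⟩ := key
  exact ⟨p, fun K hK => Set.mem_sInter.1 hp K (by exact_mod_cast hK)⟩

end Pool.Agent.W318.PT
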